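import Mathlib
import Pool.Agent.TH394.HadCheck

/-!
# A Hadamard matrix of order 2092

Four `±1` functions on `Z_523` (nibble `p` of `Q` holds the four signs at the element with
code `p`) with row sums `1, 19, -19, 37` and total periodic autocorrelation `0`.
-/

set_option autoImplicit false

namespace Pool.Agent.N447.Had.N523

open Pool.Agent.TH394

/-- the sequences -/
def Q : ℕ :=
  0x181db11a15baef7a1719c3abf481163087a818be1d1f006e6187d6f717c1fc9cc338ead391cd55861aa80c816c4c61b13eee6618b8b08618f1687898b678e9e1367c1f13b140ca6b09ea689a193913948f3bdaa69c1666ee4ec172d174e8c56f1ff9a68434906eb3be06ac061bce77d3463aa463e68be9cddcee78ebb1c1e911efce16c8ef312f6ba3df87dc81ea70dc1c31e1bb8e3b79dadf6e8b9efa3cf1e2e3166b2ee3e08a60e9d197dedef09604e291c13118e733616612c6bd76c91e611a31e1b90bd47dc78c62c98631848cec538196f04b1df6eee815a651b66888eb323ecf8b3ae2b1fb7d719b7516f166eab30d6d81786314451e3cb86f74c9efba84113ded6fb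

set_option maxRecDepth 100000 in
theorem check : checkA (Fin 523) Q 523 = true := by decide +kernel

theorem had : HadOrder 2092 :=
  hadamard_checkA (Fin 523) Q 523 (by simp) check

end Pool.Agent.N447.Had.N523
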