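import Mathlib
import Pool.Agent.TH394.HadCheck

/-!
# A Hadamard matrix of order 2284

Four `±1` functions on `Z_571` (nibble `p` of `Q` holds the four signs at the element with
code `p`) with row sums `-31, -21, -21, -21` and total periodic autocorrelation `0`.
-/

set_option autoImplicit false

namespace Pool.Agent.N447.Had.N571

open Pool.Agent.TH394

/-- the sequences -/
def Q : ℕ :=
  0x4506be70030c614ee2017460bd77aceadb324ea8b594cee4ac2571ad071eac80e1bcf5fd6bac21ea79e11ccbef9c27446fd4eaf674272fd972135a5ab9105a981ccd7234a65e4691e151912066c1eaaec51c5642357111617bccccefa2caac3b802ab916cc51a631da65360d53aa4ba1cda2a66aeb16c6af0383a1a48bbe5c8873e0309bd523c516e1a3061d76c3c7ad86ca19ab2e8c02643cbe3e69e66f10566421cb01998015766e1b11c1dd61b19b63dc10c501403bbc798d5a989f1e1d01c94e9259a7c18681e01f761c3053de611168b0c67e6e38e9318af7c9dc431e64cbd91e5d865c8f61f612498d85a1687a4e111aae371321d4181202066ec1d9377addac940d2e97a33b11eacaa1be1b61da6127c58ee1a7d69a91eb55cf0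

set_option maxRecDepth 100000 in
theorem check : checkA (Fin 571) Q 571 = true := by decide +kernel

theorem had : HadOrder 2284 :=
  hadamard_checkA (Fin 571) Q 571 (by simp) check

end Pool.Agent.N447.Had.N571
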