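import Mathlib
import Pool.Agent.TH394.HadCheck

/-!
# A Hadamard matrix of order 2292

Four `±1` functions on `Z_2 x Z_2 x Z_11 x Z_13` (nibble `p` of `Q` holds the four signs at the element with
code `p`) with row sums `2, 0, 0, 0` and total periodic autocorrelation `-4`.
-/

set_option autoImplicit false

namespace Pool.Agent.N447.Had.N573

open Pool.Agent.TH394

/-- the sequences -/
def Q : ℕ :=
  0xe87bd394ee96f13840c6a15630e87bd394ee960e87bd394ee960e87bd394ee96f13840c6a1563f13840c6a1563f13840c6a15630e87bd394ee96f13840c6a1563f2ccfee29919a8d49eb9e073e630a61465f8c138d49eb9e073e68d49eb9e073e68d49eb9e073e630a61465f8c1330a61465f8c1330a61465f8c138d49eb9e073e630a61465f8c13ce992f21fce9a4b0edee389976a4f1015c366834b0edee3899764b0edee3899764b0edee389976a4f1015c36683a4f1015c36683a4f1015c366834b0edee389976a4f1015c366839ff9e21ec92ca3b36bb003606cc5c955ffc9f9d3b36bb003606c3b36bb003606c3b36bb003606cc5c955ffc9f9dc5c955ffc9f9dc5c955ffc9f9d3b36bb003606cc5c955ffc9f9d3a33aadd33d32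

set_option maxRecDepth 100000 in
theorem check : checkB (Fin 2 × Fin 2 × Fin 11 × Fin 13) Q 572 = true := by decide +kernel

theorem ones0 : ones (Fin 2 × Fin 2 × Fin 11 × Fin 13) Q 0 = 287 := by decide +kernel
theorem ones1 : ones (Fin 2 × Fin 2 × Fin 11 × Fin 13) Q 1 = 286 := by decide +kernel
theorem ones2 : ones (Fin 2 × Fin 2 × Fin 11 × Fin 13) Q 2 = 286 := by decide +kernel
theorem ones3 : ones (Fin 2 × Fin 2 × Fin 11 × Fin 13) Q 3 = 286 := by decide +kernel

theorem had : HadOrder 2292 :=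
  hadamard_checkB (Fin 2 × Fin 2 × Fin 11 × Fin 13) Q 572 286 (by simp) (by norm_num) check ones0 ones1 ones2 ones3

end Pool.Agent.N447.Had.N573
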