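import Mathlib
import Pool.Agent.TH394.HadN479

/-!
# A Hadamard matrix of order 2636

Four `±1` functions on `G = Z_4 x Z_4 x Z_41` (nibble `p` of `S` holds the four signs at the
element with code `p`). With `N` the kernel of the map from `G` onto `Q = Z_2 x Z_2`, the total
periodic autocorrelation is `-12` at the nonzero elements of `N` and `4` outside `N`. The
Goethals-Seidel array of order `2624` is bordered by 12 rows and columns that are constant on the
cosets of `N`.
-/

set_option autoImplicit false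

namespace Pool.Agent.N447.Had.N659

open Pool.Agent.TH394 Pool.Agent.TH786.Had

/-- the group -/
abbrev G : Type := Fin 4 × Fin 4 × Fin 41

/-- the quotient -/
abbrev Q : Type := Fin 2 × Fin 2

/-- the sequences -/
def S : ℕ :=
  0xe47799799eaa790e9e949070790a77744a04ea978de04bc0bbd220cddcdcebd4d4cd2004ee2ded2b4bde04bc0bbd220cddcdcebd4d4cd2004ee2ded2b4b533a0c3005ee3c75c5c307a7ac7e33a33e735e0ae219f6896625598a282816afaf8a599f115a1256fc89a256a558dda67868695727267daa299d798d526de04bc0bbd220cddcdcebd4d4cd2004ee2ded2b4b89a256a558dda67868695727267daa299d798d526219f6896625598a282816afaf8a599f115a1256fc219f6896625598a282816afaf8a599f115a1256fc533a0c3005ee3c75c5c307a7ac7e33a33e735e0aee47799799eaa790e9e949070790a77744a04ea978533a0c3005ee3c75c5c307a7ac7e33a33e735e0ae89a256a558dda67868695727267daa299d798d526e47799799eaa790e9e949070790a77744a04ea978facce3ceef11c30f3f3ae0c0c301cccaa10af1ec1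

/-- the quotient map -/
def pi (x : G) : Q := (Fin.ofNat 2 x.1.1, Fin.ofNat 2 x.2.1.1)

/-- the code of a class -/
def cd (q : Q) : ℕ := Nat.add (Nat.mul 2 q.1.1) q.2.1

/-- the class of a code -/
def pr (q : ℕ) (p : ℕ) : Bool :=
  Nat.beq (Nat.add (Nat.mul 2 (Nat.mod (Nat.div p 164) 2))
    (Nat.mod (Nat.div p 41) 2)) q

theorem pi_pr : ∀ (q : Q) (x : G), pi x = q ↔ pr (cd q) (Loop.enc x) = true := by
  decide +kernel

theorem pi_add : ∀ x y : G, pi (x + y) = pi x + pi y := by
  have h4_2 : ∀ p q : Fin 4, Fin.ofNat 2 (p + q).1 = Fin.ofNat 2 p.1 + Fin.ofNat 2 q.1 := by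
    decide +kernel
  intro x y
  exact Prod.ext (h4_2 x.1 y.1) (h4_2 x.2.1 y.2.1)

/-- agreements needed at the shift with code `p` -/
def tt (p : ℕ) : ℕ := cond (pr 0 p) 1306 1314

set_option maxRecDepth 100000 in
theorem check : checkC G S tt = true := by decide +kernel

/-- class sums -/
def cA : Q → ℤ := fun q => if q = 0 then -12 else -12
/-- class sums -/
def cB : Q → ℤ := fun q => if q = 0 then 2 else 0
/-- class sums -/
def cC : Q → ℤ := fun q => if q = 0 then 2 else 0
/-- class sums -/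
def cD : Q → ℤ := fun q => if q = 0 then 6 else 4

theorem cls (i : ℕ) (c : Q → ℤ)
    (h : ∀ q : Q, 2 * (onesC G S i (pr (cd q)) : ℤ) - (cnt G (pr (cd q)) : ℤ) = c q) (q : Q) :
    ∑ x : G, (if pi x = q then sq S i x else 0) = c q := by
  rw [← h q, ← sum_sqC]
  exact Finset.sum_congr rfl fun x _ => if_congr (pi_pr q x) rfl rfl

theorem clsw (h : ∀ q : Q, cnt G (pr (cd q)) = 164) (q : Q) :
    ∑ x : G, (if pi x = q then (1 : ℤ) else 0) = 164 := by
  have e := h q
  have : ((cnt G (pr (cd q)) : ℕ) : ℤ) = 164 := by rw [e]; rfl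
  rw [← this, ← sum_cnt]
  exact Finset.sum_congr rfl fun x _ => if_congr (pi_pr q x) rfl rfl

/-- prescribed autocorrelation -/
def tau (q : Q) : ℤ := if q = 0 then -12 else 4

theorem tt_tau : ∀ s : G, 2 * (tt (Loop.enc s) : ℤ) - 2624 = tau (pi s) := by decide +kernel

theorem h1 : ∀ p p' : Fin 12, ∑ q, TH394.N479.X p q * TH394.N479.X p' q +
    164 * ∑ j, ∑ q, TH394.N479.Y p j q * TH394.N479.Y p' j q =
    if p = p' then (2636 : ℤ) else 0 := by decide +kernel

theorem h2 : ∀ (p : Fin 12) (i : Fin 4) (x : Q),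
    ∑ q, TH394.N479.X p q * TH394.N479.Z i x q + ∑ j, ∑ q, gs cA cB cC cD i x j q * TH394.N479.Y p j q = 0 := by
  decide +kernel

theorem h3 : ∀ (i : Fin 4) (x : Q) (i' : Fin 4) (t : Q),
    ∑ p, TH394.N479.Z i x p * TH394.N479.Z i' t p = if i = i' then -tau (x - t) else 0 := by decide +kernel

theorem had : HadOrder 2636 := by
  have e : 12 + 4 * Fintype.card G = 2636 := by simp
  rw [← e]
  refine hadamard_borderQ (G := G) (Q := Q) pi pi_add (sq S 0) (sq S 1) (sq S 2) (sq S 3)
    (fun x => sgn_pm _ _) (fun x => sgn_pm _ _) (fun x => sgn_pm _ _) (fun x => sgn_pm _ _)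
    164 (clsw (by decide +kernel)) cA cB cC cD
    (cls 0 cA (by decide +kernel)) (cls 1 cB (by decide +kernel)) (cls 2 cC (by decide +kernel))
    (cls 3 cD (by decide +kernel)) TH394.N479.Z TH394.N479.Y TH394.N479.X (fun _ _ _ => sgn_pm _ _)
    (fun _ _ _ => sgn_pm _ _)
    (fun _ _ => sgn_pm _ _) 2636 (by simp) h1 h2 tau h3 ?_
  intro s hs
  have g1 := checkC_spec S tt check s hs
  have g2 : (Fintype.card G : ℤ) = 656 := by simp
  rw [g1, g2, ← tt_tau s]
  norm_num

end Pool.Agent.N447.Had.N659
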